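import Pool.Agent.Q44.WK.Stm

/-!
# Project WK, statement `S_h`

The heights of the two points of a fibre: `4 h x ≤ h y + h y' + c`.
-/

set_option autoImplicit false

namespace Pool.Agent.Q241.WK.HH

open MvPolynomial Height Pool.Agent.Q44.WK

/-- The vector products commute with ring homomorphisms. -/
lemma map_cr {R S : Type} [CommRing R] [CommRing S] (φ : R →+* S) (v : V R) (a k : Fin 3) :
    φ (Dat.cr v a k) = Dat.cr (fun i => φ (v i)) a k := by
  fin_cases a <;> fin_cases k <;> simp [Dat.cr]

/-- The forms `G` commute with ring homomorphisms. -/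
lemma map_G {R S : Type} [CommRing R] [CommRing S] (φ : R →+* S) (D : Dat R) (x : V R)
    (a b : Fin 3) : φ (D.G x a b) = (D.map φ).G (fun i => φ (x i)) a b := by
  have hlam : (fun i => φ (D.lam x i)) = (D.map φ).lam (fun i => φ (x i)) := by
    funext j
    simp [Dat.lam, Dat.map]
  have hsym : ∀ k l, φ (D.sym x k l) = (D.map φ).sym (fun i => φ (x i)) k l := by
    intro k l
    simp [Dat.sym, Dat.map]
  simp only [Dat.G, map_sum, map_mul, map_cr, hlam, hsym]

/-- The value of the polynomial `GP a b`. -/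
lemma eval_GP {K : Type} [Field K] (D : Dat K) (x : V K) (a b : Fin 3) :
    eval x (D.GP a b) = D.G x a b := by
  have h := map_G (eval x) (D.map C) X a b
  have h1 : (D.map C).map (eval x) = D := by
    simp [Dat.map]
  have h2 : (fun i => eval x (X i)) = x := by
    funext i
    simp
  rw [h1, h2] at h
  exact h

/-- The linear map of the symmetrization. -/
def sm (K : Type) [Field K] : (Fin 3 × Fin 3) × (Fin 3 × Fin 3) → K :=
  fun p => (if p.1 = p.2 then 1 else 0) + (if p.1 = (p.2.2, p.2.1) then 1 else 0)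

lemma sum_sm {K : Type} [Field K] (f : Fin 3 × Fin 3 → K) (j : Fin 3 × Fin 3) :
    ∑ i, sm K (j, i) * f i = f j + f (j.2, j.1) := by
  have h : ∀ i : Fin 3 × Fin 3, sm K (j, i) * f i =
      (if j = i then f i else 0) + (if (j.2, j.1) = i then f i else 0) := by
    intro i
    have he : (j = (i.2, i.1)) ↔ ((j.2, j.1) = i) := by
      constructor
      · intro h; rw [h]
      · intro h; rw [← h]
    unfold sm
    simp only [he, add_mul, ite_mul, one_mul, zero_mul]
  rw [Finset.sum_congr rfl (fun i _ => h i), Finset.sum_add_distrib, Finset.sum_ite_eq,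
    Finset.sum_ite_eq]
  simp

/-- **S_h.** -/
theorem main (hnull : S_null) : S_h := by
  intro K _ _ D hD
  obtain ⟨M, q, hq, hid⟩ := hnull K D hD
  obtain ⟨C, hC⟩ := logHeight_eval_ge' (K := K) (ι := Fin 3) (ι' := Fin 3 × Fin 3) (M := M) (N := 4)
    (q := q) hq
  refine ⟨(totalWeight K : ℝ) * Real.log (Nat.card (Fin 3 × Fin 3)) +
    logHeight (sm K) - C, ?_⟩
  intro x y y' hx hy hy' hadj
  obtain ⟨c, hc, hcG⟩ := hadj
  have h1 : C + (4 : ℕ) * logHeight x ≤ logHeight (fun j : Fin 3 × Fin 3 => (D.GP j.1 j.2).eval x) := by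
    refine hC (fun j : Fin 3 × Fin 3 => D.GP j.1 j.2) (x := x) ?_
    intro k
    have h := congrArg (eval x) (hid k)
    simp only [map_sum, map_mul, map_pow, eval_X] at h
    exact h
  have h2 : (fun j : Fin 3 × Fin 3 => ∑ i, sm K (j, i) * (fun p : Fin 3 × Fin 3 => y p.1 * y' p.2) i) =
      c • (fun j : Fin 3 × Fin 3 => (D.GP j.1 j.2).eval x) := by
    funext j
    rw [sum_sm]
    simp only [Pi.smul_apply, smul_eq_mul, eval_GP]
    exact hcG j.1 j.2
  have h3 := logHeight_linearMap_apply_le (sm K) (fun p : Fin 3 × Fin 3 => y p.1 * y' p.2)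
  rw [h2, logHeight_smul_eq_logHeight _ hc, logHeight_fun_mul_eq hy hy'] at h3
  push_cast at h1
  linarith

end Pool.Agent.Q241.WK.HH
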