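import Pool.Agent.Q44.WK.Stm

/-!
# Project WK, statement `S_root`

The height of a root of a polynomial whose coefficients are polynomials in `u`.
-/

set_option autoImplicit false

namespace Pool.Agent.Q241.WK.RO

open MvPolynomial Height Pool.Agent.Q44.WK

variable {K : Type} [Field K] [NumberField K]

/-- The tuple of the powers of `w`. -/
def W (w : K) (j : ℕ) : Fin (j + 1) → K := fun i => w ^ (i : ℕ)

lemma W_ne (w : K) (j : ℕ) : W w j ≠ 0 := by
  intro h
  have h0 := congrFun h 0
  simp [W] at h0

/-- Lower bound for the height of the tuple of the powers. -/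
lemma le_W (w : K) (j : ℕ) : j * logHeight₁ w ≤ logHeight (W w j) := by
  rw [logHeight₁_eq_logHeight, ← logHeight_pow]
  have h : (![w, 1] : Fin 2 → K) ^ j = W w j ∘ ![Fin.last j, 0] := by
    funext i
    fin_cases i <;> simp [W]
  rw [h]
  exact logHeight_comp_le _ _

/-- Upper bound for the height of the tuple of the powers. -/
lemma W_le (K : Type) [Field K] [NumberField K] (j : ℕ) :
    ∃ C : ℝ, ∀ w : K, logHeight (W w j) ≤ C + j * logHeight₁ w := by
  obtain ⟨C, hC⟩ := logHeight_eval_le' (K := K) (ι := Fin 2) (ι' := Fin (j + 1)) (N := j)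
    (p := fun i => X 0 ^ (i : ℕ) * X 1 ^ (j - (i : ℕ))) (by
      intro i
      have h : (i : ℕ) + (j - (i : ℕ)) = j := by omega
      have h1 := (isHomogeneous_X_pow (R := K) (0 : Fin 2) (i : ℕ)).mul
        (isHomogeneous_X_pow (R := K) (1 : Fin 2) (j - (i : ℕ)))
      rw [h] at h1
      exact h1)
  refine ⟨C, fun w => ?_⟩
  have h := hC ![w, 1]
  rw [← logHeight₁_eq_logHeight] at h
  refine le_trans (le_of_eq ?_) h
  congr 1
  funext i
  simp [W]

/-- Upper bound for the height of the tuple of the coefficients. -/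
lemma b_le {ι : Type} [Finite ι] (d : ℕ) (c : ι → Polynomial K) (hc : ∀ e, (c e).natDegree ≤ d) :
    ∃ C : ℝ, ∀ u : K, logHeight (fun e => (c e).eval u) ≤ C + d * logHeight₁ u := by
  obtain ⟨C, hC⟩ := logHeight_eval_le' (K := K) (ι := Fin 2) (ι' := ι) (N := d)
    (p := fun e => ∑ i ∈ Finset.range (d + 1),
      MvPolynomial.C ((c e).coeff i) * (X 0 ^ i * X 1 ^ (d - i))) (by
      intro e
      refine IsHomogeneous.sum _ _ _ ?_
      intro i hi
      have hi' := Finset.mem_range.1 hi
      have h : 0 + (i + (d - i)) = d := by omega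
      have h1 := (isHomogeneous_C (Fin 2) ((c e).coeff i)).mul
        ((isHomogeneous_X_pow (R := K) (0 : Fin 2) i).mul
        (isHomogeneous_X_pow (R := K) (1 : Fin 2) (d - i)))
      rw [h] at h1
      exact h1)
  refine ⟨C, fun u => ?_⟩
  have h := hC ![u, 1]
  rw [← logHeight₁_eq_logHeight] at h
  refine le_trans (le_of_eq ?_) h
  congr 1
  funext e
  rw [Polynomial.eval_eq_sum_range' (Nat.lt_succ_of_le (hc e))]
  simp

/-- The matrix of the linear map. -/
def A (K : Type) [Field K] (F : ℕ) : Fin (F + 2) × (Fin (F + 2) × Fin (F + 1)) → K := fun p =>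
  Fin.lastCases (motive := fun _ => K) (if p.2.1 = p.2.2.castSucc then -1 else 0)
    (fun j => if (Fin.last (F + 1), j) = p.2 then 1 else 0) p.1

/-- **S_root.** -/
theorem main : S_root := by
  intro K _ _ d E c hc
  rcases E with _ | F
  · refine ⟨0, fun u w hne hsum => ?_⟩
    exfalso
    apply hne
    simpa using hsum
  obtain ⟨C₁, hC₁⟩ := W_le K F
  obtain ⟨C₂, hC₂⟩ := b_le d c hc
  refine ⟨totalWeight K * Real.log (Nat.card (Fin (F + 2) × Fin (F + 1))) +
    logHeight (A K F) + C₁ + C₂, ?_⟩
  intro u w hne hsum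
  have hb : (fun e => (c e).eval u) ≠ 0 := by
    intro h
    exact hne (congrFun h (Fin.last (F + 1)))
  have h3 := logHeight_linearMap_apply_le (A K F)
    (fun p : Fin (F + 2) × Fin (F + 1) => (fun e => (c e).eval u) p.1 * W w F p.2)
  have h2 : (fun j => ∑ i, A K F (j, i) *
      (fun p : Fin (F + 2) × Fin (F + 1) => (fun e => (c e).eval u) p.1 * W w F p.2) i) =
      (c (Fin.last (F + 1))).eval u • W w (F + 1) := by
    funext j
    refine Fin.lastCases ?_ (fun j => ?_) j
    · have hA : ∀ i : Fin (F + 2) × Fin (F + 1), A K F (Fin.last (F + 1), i) =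
          if i.1 = i.2.castSucc then -1 else 0 := by
        intro i
        simp [A]
      simp only [hA, Pi.smul_apply, smul_eq_mul, ite_mul, zero_mul, neg_mul, one_mul]
      rw [Fintype.sum_prod_type_right]
      simp only [Finset.sum_ite_eq', Finset.mem_univ, if_true]
      rw [Fin.sum_univ_castSucc] at hsum
      rw [Finset.sum_neg_distrib]
      simp only [W, Fin.val_castSucc, Fin.val_last] at hsum ⊢
      linear_combination -hsum
    · have hA : ∀ i : Fin (F + 2) × Fin (F + 1), A K F (j.castSucc, i) =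
          if (Fin.last (F + 1), j) = i then 1 else 0 := by
        intro i
        simp [A]
      simp only [hA, ite_mul, one_mul, zero_mul, Finset.sum_ite_eq, Finset.mem_univ, if_true,
        Pi.smul_apply, smul_eq_mul]
      simp [W]
  rw [h2, logHeight_smul_eq_logHeight _ hne, logHeight_fun_mul_eq hb (W_ne w F)] at h3
  have h4 := le_W w (F + 1)
  have h5 := hC₁ w
  have h6 := hC₂ u
  push_cast at h4 h3
  linarith

end Pool.Agent.Q241.WK.RO
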